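import Pool.Agent.N147.FK.B

set_option autoImplicit false

/-!
# A lower bound for the degrees of F-nef divisors on every curve in `M̄_{0,n}`

The marks are `0, …, p-1` (the type `Fin p`) and `∞`, so `n = p + 1`.  The boundary divisors of
`M̄_{0,n}` are the `δ_S`, `S` a set of marks different from `∞` with `2 ≤ |S| < p`.  The definitions
`IsDivisor`, `fdegree`, `IsStratum`, `IsCurve`, `degree` are those of the starting file
`PinchedDegrees`: an irreducible curve in `M̄_{0,n}` (of any genus) meets the interior of a unique
stratum, and its class is the sum of its projections to the factors `M̄_{0,q+1}` of the stratum; on a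
factor, given by disjoint nonempty sets `B 0, …, B (q-1)` of marks, the projection `C` has
intersection numbers `m S ≥ 0` with the `δ_S` and `d = C · ψ_∞`, where `∞` is the mark of the factor
which leads to `∞`.

Let `L` be a general line in the factor: all marks of the factor move linearly, they collide in
pairs only, each pair once; `L · ψ_∞ = 1`.

Theorem.  Let `D` be an F-nef divisor on `M̄_{0,n}`.  For every curve `C` in every factor `M̄_{0,q+1}`
that meets the interior of the factor, `D · L ≥ 0` and

`D · C ≥ -(⌊d √(q - 1)⌋ - d) (D · L) ≥ -(√(n - 2) - 1) (C · ψ_∞) (D · L)`.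

So for EVERY curve `C` the class `C + (⌊d √(q - 1)⌋ - d) L` has nonnegative degree on all the F-nef
divisors, that is, it is a nonnegative combination of F-curves (the F-conjecture says that `C` is).
If at most `s + 1` marks of the factor collide at any point of `C`, the bound
`D · C ≥ -(s - 1) d (D · L)` holds too.  For `n ≤ 8` (the case `n = 8` is the first open one)
`D · C ≥ -d (D · L)` for all curves.

The starting results of this kind: `TripleCollisions` and others (`D · C ≥ 0` for curves with
restricted collisions), `PinchedDegrees` (`D · C ≥ -3 √n b (K + Δ) · C` if the degrees of `D` on the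
F-curves are at most `b`; also the new files on this problem, with an absolute constant in the
place of `3 √n`).  Here the error term is measured by `D · L` and `C · ψ_∞`: it does not contain the
maximal degree `b` of `D` on the F-curves, nor `(K + Δ) · C`, which is of the size `q ^ 2 d / 2` for
most curves, while `D · L` can be as small as `1`.

Proof.  The collisions of a mark `x` with at least two others are coloured greedily, the large
ones first.  A collision with `s` other marks shares a further mark with at most `s d` others, and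
there are at most `(q - 1) d / s` collisions of `x` as large as this one; so `d √(q - 1)` colours
suffice, and `C + N L`, `N = ⌊d √(q - 1)⌋ - d`, satisfies the condition `LinkCond` of
`TripleCollisions`.
-/

namespace Pool.Agent.Results.MP_23e236_ag.EveryCurve

open Finset Polynomial
open Pool.Agent.Results.MP_23e236_ag.PinchedDegrees (IsDivisor fdegree IsStratum IsCurve degree)
open Pool.Agent.Results.MP_23e236_ag.TripleCollisions (contact intersection)

variable {p q : ℕ}

/-- `∑ c S • δ_S` has nonnegative degree on all the F-curves. -/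
def FNef (c : Finset (Fin p) → ℝ) : Prop :=
  ∀ X Y Z : Finset (Fin p), X.Nonempty → Y.Nonempty → Z.Nonempty →
    Disjoint X Y → Disjoint X Z → Disjoint Y Z → 0 ≤ fdegree c X Y Z

/-- The intersection numbers of a general line `L` in `M̄_{0,q+1}`, `q ≥ 3`: every pair of marks
collides once. -/
def line (S : Finset (Fin q)) : ℕ := if S.card = 2 then 1 else 0

theorem line_curve (hq : 3 ≤ q) : IsCurve (line (q := q)) 1 := by
  refine ⟨?_, ?_, ?_⟩
  · intro S hS
    exact if_neg (by omega)
  · exact if_neg (by rw [card_univ, Fintype.card_fin]; omega)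
  · intro i j hij
    unfold line
    have hmem : ({i, j} : Finset (Fin q)) ∈
        univ.filter (fun S : Finset (Fin q) => i ∈ S ∧ j ∈ S) :=
      mem_filter.2 ⟨mem_univ _, by simp, by simp⟩
    rw [← add_sum_erase _ _ hmem, if_pos (card_pair hij)]
    refine Nat.add_eq_left.2 (sum_eq_zero fun S hS => ?_)
    rw [mem_erase, mem_filter] at hS
    rw [if_neg]
    intro h3
    apply hS.1
    have hsub : ({i, j} : Finset (Fin q)) ⊆ S := by
      intro a ha
      rw [mem_insert, mem_singleton] at ha
      rcases ha with rfl | rfl
      · exact hS.2.2.1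
      · exact hS.2.2.2
    refine (eq_of_subset_of_card_le hsub ?_).symm
    rw [card_pair hij]
    omega

/-- the sum of the coefficients of the pairs is the degree on the line -/
lemma pairs_eq {c : Finset (Fin p) → ℝ} (B : Fin q → Finset (Fin p)) (hq : 3 ≤ q) :
    ∑ S ∈ univ.filter (fun S : Finset (Fin q) => S.card = 2), Pool.Agent.N147.FK.res c B S =
      degree c B line 1 := by
  rw [← Pool.Agent.N147.FK.res_degree B (by omega) (line_curve hq)]
  unfold Pool.Agent.Results.MP_23e236_ag.TripleCollisions.degree line
  rw [sum_filter]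
  refine sum_congr rfl fun S _ => ?_
  split_ifs <;> simp

lemma le_sqrt (hq : 3 ≤ q) (d : ℕ) : d ≤ ⌊(d : ℝ) * √((q : ℝ) - 1)⌋₊ := by
  apply Nat.le_floor
  have h1 : (1 : ℝ) ≤ √((q : ℝ) - 1) := by
    rw [Real.one_le_sqrt]
    have : (3 : ℝ) ≤ q := by exact_mod_cast hq
    linarith
  nlinarith [(Nat.cast_nonneg d : (0 : ℝ) ≤ d)]

/-- The main inequality on the factor of a stratum. -/
theorem main {c : Finset (Fin p) → ℝ} (hc : IsDivisor c) (hF : FNef c)
    {B : Fin q → Finset (Fin p)} (hq : 3 ≤ q) (hB : IsStratum B) {m : Finset (Fin q) → ℕ} {d : ℕ}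
    (hm : IsCurve m d) {N : ℕ} (hN : d ≤ N)
    (h : ∀ x S, x ∈ S → 3 ≤ S.card → Pool.Agent.N147.FK.load m x S ≤ N) :
    ((d : ℝ) - N) * degree c B line 1 ≤ degree c B m d := by
  have h1 := Pool.Agent.N147.FK.bound
    (Pool.Agent.N147.FK.res_divisor (hc.1 ∅ (by simp)) B (by omega))
    (Pool.Agent.N147.FK.res_fnef hF hB) (m := m) (d := d) hm hN h
  rw [pairs_eq B hq, Pool.Agent.N147.FK.res_degree B (by omega) hm] at h1
  exact h1

/-- Let `D = ∑ c S • δ_S` be an F-nef divisor on `M̄_{0,p+1}`, `p ≥ 3`.  For every curve in every factor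
`M̄_{0,q+1}` of a stratum, with intersection numbers `m S` and degree `d` on `ψ_∞`:
1. `D · L ≥ 0` for the general line `L` of the factor;
2. `D · C ≥ -(⌊d √(q - 1)⌋ - d) (D · L)`;
3. `D · C ≥ -(√(p - 1) - 1) d (D · L)`;
4. `D · C ≥ -(s - 1) d (D · L)` if never more than `s + 1` marks of the factor (without `∞`) collide;
5. `D · C ≥ -d (D · L)` if `q ≤ 7`, in particular for all curves if `n = p + 1 ≤ 8`. -/
theorem result (p : ℕ) (c : Finset (Fin p) → ℝ) (hc : IsDivisor c) (hF : FNef c) (q : ℕ)
    (hq : 3 ≤ q) (B : Fin q → Finset (Fin p)) (hB : IsStratum B) :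
    IsCurve (line (q := q)) 1 ∧ 0 ≤ degree c B line 1 ∧
    ∀ (m : Finset (Fin q) → ℕ) (d : ℕ), IsCurve m d →
      -((⌊(d : ℝ) * √((q : ℝ) - 1)⌋₊ : ℝ) - d) * degree c B line 1 ≤ degree c B m d ∧
      -((√((p : ℝ) - 1) - 1) * d) * degree c B line 1 ≤ degree c B m d ∧
      (∀ s : ℕ, 1 ≤ s → (∀ S : Finset (Fin q), s + 1 < S.card → m S = 0) →
        -(((s : ℝ) - 1) * d) * degree c B line 1 ≤ degree c B m d) ∧
      (q ≤ 7 → -(d : ℝ) * degree c B line 1 ≤ degree c B m d) := by
  classical
  have hline : 0 ≤ degree c B line 1 := by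
    have h1 := main hc hF hq hB (line_curve hq) (le_refl 1) (by
      intro x S hx hS
      unfold Pool.Agent.N147.FK.load
      refine le_trans (le_of_eq (sum_eq_zero fun T hT => ?_)) (Nat.zero_le _)
      have := (mem_filter.1 hT).2.2.1
      unfold line
      exact if_neg (by omega))
    simpa using h1
  refine ⟨line_curve hq, hline, fun m d hm => ?_⟩
  have h2 : -((⌊(d : ℝ) * √((q : ℝ) - 1)⌋₊ : ℝ) - d) * degree c B line 1 ≤ degree c B m d := by
    have h1 := main hc hF hq hB hm (le_sqrt hq d)
      (fun x S hx _ => Pool.Agent.N147.FK.load_sqrt (m := m) (d := d) hm hx)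
    rw [neg_sub]
    exact h1
  refine ⟨h2, ?_, ?_, ?_⟩
  · refine le_trans ?_ h2
    have hqp : q ≤ p := Pool.Agent.Results.MP_23e236_ag.PinchedDegrees.size hB
    have h3 : (⌊(d : ℝ) * √((q : ℝ) - 1)⌋₊ : ℝ) ≤ (d : ℝ) * √((p : ℝ) - 1) := by
      refine (Nat.floor_le (by positivity)).trans ?_
      have h4 : √((q : ℝ) - 1) ≤ √((p : ℝ) - 1) := by
        apply Real.sqrt_le_sqrt
        have : (q : ℝ) ≤ p := by exact_mod_cast hqp
        linarith
      exact mul_le_mul_of_nonneg_left h4 (Nat.cast_nonneg d)
    apply mul_le_mul_of_nonneg_right _ hline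
    linarith
  · intro s hs hS
    have h1 := main hc hF hq hB hm (N := s * d) (Nat.le_mul_of_pos_left d hs) (by
      intro x S hx _
      rcases Nat.lt_or_ge (s + 1) S.card with h5 | h5
      · refine le_trans (le_of_eq ?_) (Nat.zero_le _)
        unfold Pool.Agent.N147.FK.load
        refine sum_eq_zero fun T hT => ?_
        have := (mem_filter.1 hT).2.2.1
        exact hS T (by omega)
      · exact (Pool.Agent.N147.FK.load_le (m := m) (d := d) hm hx).trans
          (Nat.mul_le_mul_right _ (by omega)))
    refine le_trans (le_of_eq ?_) h1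
    push_cast
    ring
  · intro hq7
    have h1 := main hc hF hq hB hm (N := 2 * d) (by omega) (by
      intro x S hx hS
      have a1 := Pool.Agent.N147.FK.load_le (m := m) (d := d) hm hx
      have a2 := Pool.Agent.N147.FK.mul_load_le (m := m) (d := d) (x := x) (S := S) hm
      rcases Nat.lt_or_ge 3 S.card with h5 | h5
      · have a3 : 3 * Pool.Agent.N147.FK.load m x S ≤ 6 * d :=
          (Nat.mul_le_mul_right _ (by omega)).trans (a2.trans (Nat.mul_le_mul_right _ (by omega)))
        omega
      · have a4 : S.card - 1 = 2 := by omega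
        rw [a4] at a1
        exact a1)
    refine le_trans (le_of_eq ?_) h1
    push_cast
    ring

end Pool.Agent.Results.MP_23e236_ag.EveryCurve
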