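import Pool.Agent.N147.FH.I
import Pool.Agent.N147.FH.O

set_option autoImplicit false

/-!
# F-nef divisors are positive on almost all rational curves in `M̄_{0,n}`

The marks are `0, …, p-1` (the type `Fin p`) and `∞`, so `n = p + 1`.  The boundary divisors of
`M̄_{0,n}` are the `δ_S`, `S` a set of marks different from `∞` with `2 ≤ |S| < p` (`δ_S`
separates `S` from the other marks).  `IsDivisor`, `FNef`, `contact`, `intersection` are the
definitions of the starting file `TripleCollisions` on this problem.

Every rational curve that meets the interior of `M̄_{0,n}` is `t ↦ ((x i)(t))_i, ∞` for different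
polynomials `x i` of degree at most `d` (the least possible `d` is the degree of `ψ_∞` on it).

The theorem.  Let `A` be a finite subset of an algebraically closed field `K`, let `M ≠ 0` and `a i`
be ARBITRARY polynomials, `deg M + e ≤ d`, `deg (a i) ≤ d`.  Consider the `|A| ^ ((e+1) p)` curves
`x i = a i + M y i`, where the `y i` run through the polynomials of degree at most `e` with
coefficients in `A` (perturbations of low degree of an arbitrary curve, in an arbitrary residue
class: arbitrary collisions of arbitrary order can be prescribed at the zeros of `M` and at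
`t = ∞`).  For almost all of them
`D · C ≥ (1 - ε) e (D · L)` for ALL F-nef divisors `D` simultaneously,
where `L` is the class of a general line (all marks move linearly, they collide in pairs only, each
pair once) and `D · L ≥ 0`.  Precisely, with `N = ε (e + 1)`, the proportion of the exceptions is at
most

* `p³ (d / |A|) / N + p² / |A| ^ (e+1)` for every `A`;
* `p³ (d / √(e+1) + 2 log₂ (e+1)) / N + p² / |A| ^ (e+1)` if the characteristic is `0` and `|A| ≥ 2`
  (for example `A = {0, 1}` or `A = {-H, …, H}`): here `A` is fixed and the degree tends to infinity;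
* `p³ (4 / |A| + d / |A| ^ (e+1)) / N + p² / |A| ^ (e+1)` if `A` is a subfield that contains the
  coefficients of `M` and `a i`: here `e` can be as small as `log d`; and a power saving,
  `p³ (3 / |A| ^ (k+1) + d / |A| ^ (e+1)) + p² / |A| ^ (e+1)` for the exceptions to
  `D · C ≥ (e - 2 p² k) (D · L)`, for all `k ≤ e / (2 p²)`.

In particular, for all `n` and every finite field the inequality of the F-conjecture holds on 100%
of the rational curves over the field (ordered by the degree of `ψ_∞`), with exceptions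
`≪ total ^ (1 - δ)`.

The proof.  If every mark takes part in at most `B` collisions of at least three marks then the
curve minus `d - B` general lines satisfies the condition `LinkCond` of `TripleCollisions` (colours
used once).  The prescribed collisions take place at `d - e` levels.  The others are rare: common
zeros of two random polynomials, counted over all closed points of the line (finite fields), by the
Littlewood-Offord inequality (characteristic `0`), and by common divisors of moderate degree
(power saving).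
-/

namespace Pool.Agent.Results.MP_23e236_ag.HundredPercent

open Finset Polynomial
open Pool.Agent.Results.MP_23e236_ag.TripleCollisions (IsDivisor FNef contact intersection)

section defs

variable {p : ℕ} {K : Type} [Field K]

/-- The degree of `D = ∑ c S • δ_S` on the curve `t ↦ ((x i)(t))_i, ∞`. -/
noncomputable def curveDegree (c : Finset (Fin p) → ℝ) (d : ℕ) (x : Fin p → K[X]) : ℝ :=
  ∑ S ∈ univ.filter (fun S : Finset (Fin p) => 2 ≤ S.card ∧ S.card < p), c S * intersection d x S

/-- The degree of `D = ∑ c S • δ_S` on a general line: every pair of marks collides once. -/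
noncomputable def lineDegree (c : Finset (Fin p) → ℝ) : ℝ :=
  ∑ S ∈ univ.filter (fun S : Finset (Fin p) => S.card = 2), c S

/-- The polynomials `x i` are different and `D · C ≥ s (D · L)` for all F-nef divisors `D`, where
`C` is the curve `t ↦ ((x i)(t))_i, ∞` and `L` a general line. -/
def Positive (d : ℕ) (s : ℝ) (x : Fin p → K[X]) : Prop :=
  (∀ i j, i ≠ j → x i ≠ x j) ∧
    ∀ c : Finset (Fin p) → ℝ, IsDivisor c → FNef c → s * lineDegree c ≤ curveDegree c d x

/-- The tuples of polynomials of degree at most `e` with coefficients in `A`. -/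
def Tuples (A : Finset K) (p e : ℕ) : Set (Fin p → K[X]) :=
  {y | ∀ i, (y i).natDegree ≤ e ∧ ∀ n, n ≤ e → (y i).coeff n ∈ A}

/-- The number of the tuples `y` for which the curve `x i = a i + M y i` is not positive. -/
noncomputable def exceptions (A : Finset K) (e d : ℕ) (s : ℝ) (a : Fin p → K[X]) (M : K[X]) : ℕ :=
  Set.ncard {y : Fin p → K[X] | y ∈ Tuples A p e ∧ ¬ Positive d s (fun i => a i + M * y i)}

end defs

section proofs

variable {p : ℕ} {K : Type} [Field K]

lemma intersection_eq (d : ℕ) (x : Fin p → K[X]) (S : Finset (Fin p)) :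
    intersection d x S = Pool.Agent.TH451.FC.inter d x S := by
  have econ : ∀ τ i j, contact d x τ i j = Pool.Agent.TH451.FC.contact d x τ i j := by
    intro τ i j
    cases τ <;> rfl
  unfold intersection Pool.Agent.TH451.FC.inter
  simp only [econ]

lemma line_nonneg {c : Finset (Fin p) → ℝ} (hc : IsDivisor c) (hF : FNef c) :
    0 ≤ lineDegree c := by
  classical
  by_cases hp : p = 2
  · refine (sum_eq_zero fun S hS => ?_).ge
    have h2 := (mem_filter.1 hS).2
    have h3 : S = univ := by
      apply eq_univ_of_card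
      rw [Fintype.card_fin, h2, hp]
    rw [h3]
    exact hc.2
  have hm : Pool.Agent.Results.MP_23e236_ag.TripleCollisions.IsCurve
      (fun S : Finset (Fin p) => if S.card = 2 then 1 else 0) 1 := by
    refine ⟨?_, ?_, ?_⟩
    · intro S hS
      simp only
      rw [if_neg (by omega)]
    · simp only
      rw [if_neg (by rw [card_univ, Fintype.card_fin]; exact hp)]
    · intro i j hij
      have hmem : ({i, j} : Finset (Fin p)) ∈
          univ.filter (fun S : Finset (Fin p) => i ∈ S ∧ j ∈ S) :=
        mem_filter.2 ⟨mem_univ _, by simp, by simp⟩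
      rw [← add_sum_erase _ _ hmem, if_pos (card_pair hij)]
      refine Nat.add_eq_left.2 (sum_eq_zero fun S hS => ?_)
      rw [mem_erase, mem_filter] at hS
      rw [if_neg]
      intro h3
      apply hS.1
      have hsub : ({i, j} : Finset (Fin p)) ⊆ S := by
        intro a ha
        rw [mem_insert, mem_singleton] at ha
        rcases ha with rfl | rfl
        · exact hS.2.2.1
        · exact hS.2.2.2
      refine (eq_of_subset_of_card_le hsub ?_).symm
      rw [card_pair hij]
      omega
  have h1 := Pool.Agent.N147.FH.few hc hF hm (by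
    intro x
    refine le_trans (le_of_eq (sum_eq_zero fun S hS => ?_)) (Nat.zero_le _)
    rw [if_neg]
    have := (mem_filter.1 hS).2.2
    omega)
  refine h1.trans_eq ?_
  unfold Pool.Agent.Results.MP_23e236_ag.TripleCollisions.degree lineDegree
  rw [sum_filter]
  refine sum_congr rfl fun S _ => ?_
  by_cases h : S.card = 2
  · simp [h]
  · simp [h]

/-- the tuple of polynomials with given coefficients -/
noncomputable def PsiA (A : Finset K) (p e : ℕ) (v : Fin p → (Fin (e + 1) → A)) : Fin p → K[X] :=
  fun i => Pool.Agent.N147.FJ.PA A e (v i)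

lemma exists_PsiA {A : Finset K} {e : ℕ} {y : Fin p → K[X]} (hy : y ∈ Tuples A p e) :
    ∃ v, PsiA A p e v = y := by
  refine ⟨fun i n => ⟨(y i).coeff n, (hy i).2 n (by have := n.isLt; omega)⟩, ?_⟩
  funext i
  unfold PsiA
  ext n
  rcases Nat.lt_or_ge n (e + 1) with h | h
  · exact Pool.Agent.N147.FJ.PA_coeff (A := A) (e := e) _ ⟨n, h⟩
  · rw [coeff_eq_zero_of_natDegree_lt
      (lt_of_le_of_lt (Pool.Agent.N147.FJ.PA_deg (A := A) _) (by omega)),
      coeff_eq_zero_of_natDegree_lt (lt_of_le_of_lt (hy i).1 (by omega))]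

lemma PsiA_mem (A : Finset K) (e : ℕ) (v : Fin p → (Fin (e + 1) → A)) :
    PsiA A p e v ∈ Tuples A p e := by
  intro i
  refine ⟨Pool.Agent.N147.FJ.PA_deg _, fun n hn => ?_⟩
  unfold PsiA
  have h := Pool.Agent.N147.FJ.PA_coeff (A := A) (e := e) (v i) ⟨n, by omega⟩
  simp only at h
  rw [h]
  exact (v i ⟨n, by omega⟩).2

lemma PsiA_inj (A : Finset K) (e : ℕ) : Function.Injective (PsiA A p e) := by
  intro u v h
  funext i
  exact Pool.Agent.N147.FJ.PA_inj (congrFun h i)

lemma card_Tuples (A : Finset K) (e : ℕ) :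
    (Tuples A p e).ncard = (A.card ^ (e + 1)) ^ p := by
  classical
  have h1 : Tuples A p e = PsiA A p e '' Set.univ := by
    ext y
    constructor
    · intro hy
      obtain ⟨v, hv⟩ := exists_PsiA hy
      exact ⟨v, Set.mem_univ _, hv⟩
    · rintro ⟨v, _, rfl⟩
      exact PsiA_mem A e v
  rw [h1, Set.ncard_image_of_injective _ (PsiA_inj A e), Set.ncard_univ, Nat.card_eq_fintype_card]
  rw [Fintype.card_fun, Fintype.card_fun, Fintype.card_fin, Fintype.card_fin, Fintype.card_coe]

open Classical in
lemma exc_le (A : Finset K) (e d : ℕ) (s : ℝ) (a : Fin p → K[X]) (M : K[X]) :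
    exceptions A e d s a M ≤ (univ.filter fun y : Fin p → (Fin (e + 1) → A) =>
      ¬ ((∀ i j, i ≠ j → Pool.Agent.N147.FJ.ps (Pool.Agent.N147.FJ.PA A e) a M y i ≠
          Pool.Agent.N147.FJ.ps (Pool.Agent.N147.FJ.PA A e) a M y j) ∧
        ∀ c : Finset (Fin p) → ℝ, IsDivisor c → FNef c →
          s * ∑ S ∈ univ.filter (fun S : Finset (Fin p) => S.card = 2), c S ≤
          ∑ S ∈ univ.filter (fun S : Finset (Fin p) => 2 ≤ S.card ∧ S.card < p),
            c S * Pool.Agent.TH451.FC.inter d
              (fun i => Pool.Agent.N147.FJ.ps (Pool.Agent.N147.FJ.PA A e) a M y i) S)).card := by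
  unfold exceptions
  rw [← Set.ncard_coe_finset]
  refine (Set.ncard_le_ncard (t := PsiA A p e '' _) ?_ (Set.toFinite _)).trans
    (Set.ncard_image_le (Set.toFinite _))
  rintro y ⟨hy, hpos⟩
  obtain ⟨v, rfl⟩ := exists_PsiA hy
  refine ⟨v, ?_, rfl⟩
  rw [mem_coe, mem_filter]
  refine ⟨mem_univ _, fun h => hpos ⟨h.1, fun c hc hF => ?_⟩⟩
  have h1 := h.2 c hc hF
  unfold lineDegree curveDegree
  simp only [intersection_eq]
  exact h1

lemma exists_lift {F : Type} [Field F] [Algebra F K] {u : K[X]}
    (h : ∀ n, u.coeff n ∈ Set.range (algebraMap F K)) :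
    ∃ u' : F[X], u'.map (algebraMap F K) = u := by
  have h1 : u ∈ lifts (algebraMap F K) := by
    rw [lifts_iff_coeff_lifts]
    exact h
  exact (mem_lifts u).1 h1

open Classical in
lemma excF_le {F : Type} [Field F] [Fintype F] [Algebra F K] {A : Finset K}
    (hF : Set.range (algebraMap F K) = A) (e d : ℕ)
    (s : ℝ) (a' : Fin p → F[X]) (M' : F[X]) :
    exceptions A e d s (fun i => (a' i).map (algebraMap F K)) (M'.map (algebraMap F K)) ≤
      (univ.filter fun y : Fin p → degreeLT F (e + 1) =>
      ¬ ((∀ i j, i ≠ j → Pool.Agent.N147.FH.ps a' M' y i ≠ Pool.Agent.N147.FH.ps a' M' y j) ∧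
        ∀ c : Finset (Fin p) → ℝ, IsDivisor c → FNef c →
          s * ∑ S ∈ univ.filter (fun S : Finset (Fin p) => S.card = 2), c S ≤
          ∑ S ∈ univ.filter (fun S : Finset (Fin p) => 2 ≤ S.card ∧ S.card < p),
            c S * Pool.Agent.TH451.FC.inter d
              (fun i => (Pool.Agent.N147.FH.ps a' M' y i).map (algebraMap F K)) S)).card := by
  unfold exceptions
  rw [← Set.ncard_coe_finset]
  refine (Set.ncard_le_ncard (t := (fun (y : Fin p → degreeLT F (e + 1)) (i : Fin p) =>
    ((y i : F[X])).map (algebraMap F K)) '' _) ?_ (Set.toFinite _)).trans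
    (Set.ncard_image_le (Set.toFinite _))
  rintro y ⟨hy, hpos⟩
  have h1 : ∀ i, ∃ u' : F[X], u'.map (algebraMap F K) = y i := by
    intro i
    apply exists_lift
    intro n
    rw [hF]
    rcases Nat.lt_or_ge n (e + 1) with h | h
    · exact mem_coe.2 ((hy i).2 n (by omega))
    · rw [coeff_eq_zero_of_natDegree_lt (lt_of_le_of_lt (hy i).1 (by omega)), ← hF]
      exact ⟨0, map_zero _⟩
  choose u hu using h1
  have hdeg : ∀ i, u i ∈ degreeLT F (e + 1) := by
    intro i
    rw [mem_degreeLT]
    have h2 := (hy i).1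
    rw [← hu i, natDegree_map] at h2
    exact lt_of_le_of_lt degree_le_natDegree (by exact_mod_cast (by omega : (u i).natDegree < e + 1))
  have hps : ∀ i, (Pool.Agent.N147.FH.ps a' M' (fun i => (⟨u i, hdeg i⟩ : degreeLT F (e + 1)))
      i).map (algebraMap F K) = (a' i).map (algebraMap F K) + M'.map (algebraMap F K) * y i := by
    intro i
    unfold Pool.Agent.N147.FH.ps
    rw [Polynomial.map_add, Polynomial.map_mul, hu]
  refine ⟨fun i => ⟨u i, hdeg i⟩, ?_, funext fun i => hu i⟩
  rw [mem_coe, mem_filter]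
  refine ⟨mem_univ _, fun h => hpos ⟨?_, fun c hc hFc => ?_⟩⟩
  · intro i j hij h2
    simp only [← hps] at h2
    exact h.1 i j hij (map_injective _ (algebraMap F K).injective h2)
  · have h2 := h.2 c hc hFc
    unfold lineDegree curveDegree
    simp only [intersection_eq]
    simp only [hps] at h2
    exact h2

lemma partF {F : Type} [Field F] [Fintype F] [Algebra F K] [IsAlgClosed K] {A : Finset K}
    (hF : Set.range (algebraMap F K) = A) {d e : ℕ} (a : Fin p → K[X]) (M : K[X]) (hM : M ≠ 0)
    (hMe : M.natDegree + e ≤ d) (ha : ∀ i, (a i).natDegree ≤ d)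
    (hMF : ∀ n, M.coeff n ∈ Set.range (algebraMap F K))
    (haF : ∀ i n, (a i).coeff n ∈ Set.range (algebraMap F K)) :
    (∀ N : ℕ, 1 ≤ N → N ≤ e + 1 →
        (exceptions A e d ((e : ℝ) + 1 - N) a M : ℝ) ≤
          ((p : ℝ) ^ 3 * (4 / (A.card : ℝ) + d / (A.card : ℝ) ^ (e + 1)) / N +
            (p : ℝ) ^ 2 / (A.card : ℝ) ^ (e + 1)) * ((A.card : ℝ) ^ (e + 1)) ^ p) ∧
      (∀ k : ℕ, 2 * p ^ 2 * k ≤ e →
        (exceptions A e d ((e : ℝ) - 2 * p ^ 2 * k) a M : ℝ) ≤
          ((p : ℝ) ^ 3 * (3 / (A.card : ℝ) ^ (k + 1) + d / (A.card : ℝ) ^ (e + 1)) +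
            (p : ℝ) ^ 2 / (A.card : ℝ) ^ (e + 1)) * ((A.card : ℝ) ^ (e + 1)) ^ p) := by
  have hcard : Fintype.card F = A.card := by
    rw [← Set.ncard_coe_finset A, ← hF, ← Set.image_univ,
      Set.ncard_image_of_injective _ (algebraMap F K).injective, Set.ncard_univ,
      Nat.card_eq_fintype_card]
  obtain ⟨M', rfl⟩ := exists_lift hMF
  have ha' : ∀ i, ∃ u' : F[X], u'.map (algebraMap F K) = a i := fun i => exists_lift (haF i)
  choose a' ha' using ha'
  have haa : a = fun i => (a' i).map (algebraMap F K) := funext fun i => (ha' i).symm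
  subst haa
  have hM' : M' ≠ 0 := by
    rintro rfl
    simp at hM
  rw [natDegree_map] at hMe
  have hda : ∀ i, (a' i).natDegree ≤ d := by
    intro i
    have := ha i
    simpa [natDegree_map] using this
  rw [← hcard]
  refine ⟨?_, ?_⟩
  · intro N hN hNe
    exact (Nat.cast_le.2 (excF_le hF e d ((e : ℝ) + 1 - N) a' M')).trans
      (Pool.Agent.N147.FH.count (K := K) hM' hMe hda hN hNe)
  · intro k hk
    exact (Nat.cast_le.2 (excF_le hF e d ((e : ℝ) - 2 * p ^ 2 * k) a' M')).trans
      (Pool.Agent.N147.FH.count' (K := K) hM' hMe hda hk)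

end proofs

/-- **Main theorem.** For almost all tuples `y` of polynomials of degree at most `e` with
coefficients in `A` all the F-nef divisors `D` satisfy `D · C ≥ s (D · L)` on the curve
`x i = a i + M y i`, `L` a general line, `s = e + 1 - N` or `s = e - 2 p² k`:
1. `D · L ≥ 0`; 2. the number of the tuples; 3. the exceptions, for every finite subset `A` of any
algebraically closed field; 4. the same in characteristic zero, for fixed `A` and `e → ∞`; 5. the
same for a finite subfield `A` that contains the coefficients of `M` and `a i`, and with a power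
saving. -/
theorem result (K : Type) [Field K] [IsAlgClosed K] (p d e : ℕ) (A : Finset K) (hA : 1 ≤ A.card)
    (a : Fin p → K[X]) (M : K[X]) (hM : M ≠ 0) (hMe : M.natDegree + e ≤ d)
    (ha : ∀ i, (a i).natDegree ≤ d) :
    (∀ c : Finset (Fin p) → ℝ, IsDivisor c → FNef c → 0 ≤ lineDegree c) ∧
    (Tuples A p e).ncard = (A.card ^ (e + 1)) ^ p ∧
    (∀ N : ℕ, 1 ≤ N → N ≤ e + 1 →
      (exceptions A e d ((e : ℝ) + 1 - N) a M : ℝ) ≤
        ((p : ℝ) ^ 3 * (d / (A.card : ℝ)) / N + (p : ℝ) ^ 2 / (A.card : ℝ) ^ (e + 1)) *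
          ((A.card : ℝ) ^ (e + 1)) ^ p) ∧
    (CharZero K → 2 ≤ A.card → ∀ N : ℕ, 1 ≤ N → N ≤ e + 1 →
      (exceptions A e d ((e : ℝ) + 1 - N) a M : ℝ) ≤
        ((p : ℝ) ^ 3 * (d / √((e : ℝ) + 1) + 2 * (Nat.log 2 (e + 1) : ℝ)) / N +
          (p : ℝ) ^ 2 / (A.card : ℝ) ^ (e + 1)) * ((A.card : ℝ) ^ (e + 1)) ^ p) ∧
    (∀ F : Subfield K, (F : Set K) = A → (∀ n, M.coeff n ∈ F) → (∀ i n, (a i).coeff n ∈ F) →
      (∀ N : ℕ, 1 ≤ N → N ≤ e + 1 →
        (exceptions A e d ((e : ℝ) + 1 - N) a M : ℝ) ≤
          ((p : ℝ) ^ 3 * (4 / (A.card : ℝ) + d / (A.card : ℝ) ^ (e + 1)) / N +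
            (p : ℝ) ^ 2 / (A.card : ℝ) ^ (e + 1)) * ((A.card : ℝ) ^ (e + 1)) ^ p) ∧
      (∀ k : ℕ, 2 * p ^ 2 * k ≤ e →
        (exceptions A e d ((e : ℝ) - 2 * p ^ 2 * k) a M : ℝ) ≤
          ((p : ℝ) ^ 3 * (3 / (A.card : ℝ) ^ (k + 1) + d / (A.card : ℝ) ^ (e + 1)) +
            (p : ℝ) ^ 2 / (A.card : ℝ) ^ (e + 1)) * ((A.card : ℝ) ^ (e + 1)) ^ p)) := by
  classical
  refine ⟨fun c hc hF => line_nonneg hc hF, card_Tuples A e, ?_, ?_, ?_⟩
  · intro N hN hNe
    refine le_trans ?_ (Pool.Agent.N147.FJ.countA hA hM hMe ha hN hNe)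
    exact Nat.cast_le.2 (exc_le A e d ((e : ℝ) + 1 - N) a M)
  · intro h0 hA2 N hN hNe
    refine le_trans ?_ (Pool.Agent.N147.FJ.countA0 hA2 hM hMe ha hN hNe)
    exact Nat.cast_le.2 (exc_le A e d ((e : ℝ) + 1 - N) a M)
  · intro F hF hMF haF
    have hfin : Finite F := by
      have h1 : (F : Set K).Finite := by
        rw [hF]
        exact A.finite_toSet
      exact h1.to_subtype
    let _ : Fintype F := Fintype.ofFinite F
    have hr : Set.range (algebraMap F K) = (F : Set K) := by
      ext t
      constructor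
      · rintro ⟨u, rfl⟩
        exact u.2
      · intro ht
        exact ⟨⟨t, ht⟩, rfl⟩
    exact partF (F := F) (hr.trans hF) a M hM hMe ha (fun n => by rw [hr]; exact hMF n)
      (fun i n => by rw [hr]; exact haF i n)

end Pool.Agent.Results.MP_23e236_ag.HundredPercent
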