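import Pool.Agent.N4.KR.Asm2
import Pool.Agent.N4.KR.V1
import Pool.Agent.N4.KR.V2
import Pool.Agent.N4.KR.V3
import Pool.Agent.N4.KR.V4
import Pool.Agent.N4.KR.V5
import Pool.Agent.N4.KR.V6
import Pool.Agent.N4.KR.V7
import Pool.Agent.N4.KR.L7
import Pool.Agent.N4.KR.L8
import Pool.Agent.N4.KR.W1
import Pool.Agent.N4.KR.W2
import Pool.Agent.N4.KR.W3
import Pool.Agent.N4.KR.W4
import Pool.Agent.N4.KR.W5
import Pool.Agent.N4.KR.W6
import Pool.Agent.N4.KR.W7
import Pool.Agent.R647.FC.Nef

set_option autoImplicit false

/-!
# An approximate F-conjecture for all divisors on `M̄_{0,n}`, with an absolute constant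

The marks are `0, …, p-1` (the type `Fin p`) and `∞`, so `n = p + 1`.  The boundary divisors of
`M̄_{0,n}` are the `δ_S`, `S` a set of marks different from `∞` with `2 ≤ |S| < p` (`δ_S`
separates `S` from the other marks).  The F-curve of type `(A, B, C)`, for disjoint nonempty sets
`A, B, C` of marks different from `∞`, is the one of the partition `A, B, C`, (the rest, with `∞`).

The log canonical divisor `K + Δ` of `M̄_{0,n}` is ample and has degree one on all the F-curves; it
is `∑ (j (n - j) / (n - 1) - 1) • Δ_j`.  So the F-conjecture holds for the divisors proportional to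
`K + Δ`, whose degrees on the F-curves are all the same.

Theorem.  Let the degrees of `D` on the F-curves lie in the interval `[a, b]`, and let
`e = a - κ (b - a)`, where `κ` is the minimum of `3 √n` and `51`.  Then `D - e (K + Δ)` is linearly
equivalent to an effective sum of boundary divisors, and it is nef.  So, for every `n`,

* a divisor on `M̄_{0,n}` whose degrees on the F-curves are nonnegative and at most `b` becomes nef
  after adding `51 b (K + Δ)`, and this sum is linearly equivalent to an effective sum of boundary
  divisors;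
* a divisor on `M̄_{0,n}` whose degrees on the F-curves are positive and within a factor
  `1 + 1 / 52` of each other is ample.

The starting file `PinchedDegrees` on this problem has `3 √n` in the place of `κ`: there the factor
tends to `1` as `n` grows.  The present constants do not depend on `n`.

Curves.  An irreducible curve in `M̄_{0,n}` meets the interior of a unique stratum, and its class is
the sum of its projections to the factors `M̄_{0,q+1}` of the stratum.  Such a factor belongs to
disjoint nonempty sets `B 0, …, B (q-1)` of marks different from `∞` (the marks behind the nodes and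
marks of the component of the stable curve; the last one leads to `∞`).  On the factor the
projection of the curve has the intersection numbers `m S ≥ 0` with the boundary divisors
`δ_S`, `2 ≤ |S| < q`, the degree `d` on `ψ_∞`, and it meets the interior.  The divisor `δ_T` of
`M̄_{0,n}` restricts to `δ_S` if `T` is the union of the `B i`, `i ∈ S`, to `-ψ_i` if `T = B i`, and
to `-ψ_∞` if `T` is the union of all `B i`.

Proof.  Restricted to a stratum, `D` becomes a symmetric function `f` on the subsets of the set `V`
of the marks of the factor.  The degree on the F-curve `(A, B, C)` is the defect of additivity in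
`A, B` of the interaction `f A + f C - f (A ∪ C)`.  So, after subtracting the mean value of the
degrees times `K + Δ`, the interaction of a mark `z` with the sets is additive up to an error
`(b - a) / 2`.  By a theorem of Kalton and Roberts (here with the constant `20.2`, proved by an
optimality condition, intersections of extremal sets, and concentrators) it is within
`20.2 (b - a) / 2` of an additive function `μ z`.  Adding the marks one after the other, in any
order, one finds `f A` up to `20.2 (|A| - 1) (b - a) / 2`.  The different orders show that the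
antisymmetric part of `μ` is small on cuts, and a correction of the symmetric part makes it exact on
the marks.  So `f` is the function of a cut, up to an error at most `51.5 (b - a)` times the
coefficient of `K + Δ`, and the cut functions are the linear equivalences.
-/

namespace Pool.Agent.Results.MP_23e236_ag.UniformPinching

open Finset

variable {p q : ℕ}

/-- The constant: the minimum of `3 √n` and `51`. -/
noncomputable def kappa (n : ℕ) : ℝ := min (3 * √(n : ℝ)) 51

/-- `c` is a family of coefficients: it stands for the divisor `∑ c S • δ_S`, the sum over the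
`S` with `2 ≤ |S| < p`; it vanishes on the sets that give no boundary divisor. -/
def IsDivisor (c : Finset (Fin p) → ℝ) : Prop :=
  (∀ S : Finset (Fin p), S.card ≤ 1 → c S = 0) ∧ c univ = 0

/-- The degree of `∑ c S • δ_S` on the F-curve of type `(A, B, C)`. -/
def fdegree (c : Finset (Fin p) → ℝ) (A B C : Finset (Fin p)) : ℝ :=
  c (A ∪ B) + c (A ∪ C) + c (B ∪ C) - c A - c B - c C - c (A ∪ B ∪ C)

/-- Linear equivalence: the difference is a combination, with coefficients `w x y` whose sum is
zero (take `S = univ`), of the sums `∑ δ_S` over the `S` containing `x` and `y` (these sums are all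
linearly equivalent to `ψ_∞`, and their differences generate the relations, by Keel's theorem). -/
def LinEquiv (c u : Finset (Fin p) → ℝ) : Prop :=
  ∃ w : Fin p → Fin p → ℝ, ∀ S : Finset (Fin p),
    c S - u S = ∑ y ∈ S, ∑ x ∈ S.filter (fun x : Fin p => x < y), w x y

/-- The log canonical divisor `K + Δ`: the coefficient of `δ_S` is `j (n - j) / (n - 1) - 1`, where
`j = |S|` and `n = p + 1`. -/
noncomputable def logCanonical (S : Finset (Fin p)) : ℝ :=
  if S = ∅ then 0 else ((S.card : ℝ) - 1) * ((p : ℝ) - S.card) / p

/-- The `B i` are disjoint nonempty sets of marks different from `∞`. -/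
def IsStratum (B : Fin q → Finset (Fin p)) : Prop :=
  (∀ i, (B i).Nonempty) ∧ ∀ i j, i ≠ j → Disjoint (B i) (B j)

/-- `m S` are the intersection numbers with `δ_S` of a curve in `M̄_{0,q+1}` that is not contained
in the boundary, and `d` is its degree on `ψ_∞`: all `m S ≥ 0`, and for all marks `i ≠ j` different
from `∞` we have `ψ_∞ = ∑ δ_S`, the sum over the `S` containing `i` and `j`. -/
def IsCurve (m : Finset (Fin q) → ℕ) (d : ℕ) : Prop :=
  (∀ S : Finset (Fin q), S.card ≤ 1 → m S = 0) ∧ m univ = 0 ∧
    ∀ i j : Fin q, i ≠ j →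
      ∑ S ∈ univ.filter (fun S : Finset (Fin q) => i ∈ S ∧ j ∈ S), m S = d

/-- The degree of `∑ c S • δ_S` on the curve with the numbers `m`, `d` in the factor `M̄_{0,q+1}` of
a stratum given by the `B i`; the degree of `ψ_i` on the curve is `∑ m S - d`, the sum over the `S`
containing `i`. -/
def degree (c : Finset (Fin p) → ℝ) (B : Fin q → Finset (Fin p)) (m : Finset (Fin q) → ℕ)
    (d : ℕ) : ℝ :=
  ∑ S ∈ univ.filter (fun S : Finset (Fin q) => 2 ≤ S.card ∧ S.card < q), c (S.biUnion B) * m S -
    ∑ i, c (B i) * (∑ S ∈ univ.filter (fun S : Finset (Fin q) => i ∈ S), (m S : ℝ) - d) -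
    c (univ.biUnion B) * d

theorem logCanonical_divisor (hp : 1 ≤ p) : IsDivisor (logCanonical (p := p)) := by
  have hp' : (p : ℝ) ≠ 0 := by
    have : (1 : ℝ) ≤ p := by exact_mod_cast hp
    linarith
  constructor
  · intro S hS
    unfold logCanonical
    split_ifs with h
    · rfl
    · have : S.card = 1 := by
        have := card_pos.2 (nonempty_iff_ne_empty.2 h)
        omega
      rw [this]
      simp
  · unfold logCanonical
    rw [card_univ, Fintype.card_fin]
    simp

theorem logCanonical_fdegree {A B C : Finset (Fin p)} (hA : A.Nonempty) (hB : B.Nonempty)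
    (hC : C.Nonempty) (h1 : Disjoint A B) (h2 : Disjoint A C) (h3 : Disjoint B C) :
    fdegree logCanonical A B C = 1 := by
  have hp : 1 ≤ p := by
    have e1 := card_pos.2 hA
    have e2 := card_le_univ A
    rw [Fintype.card_fin] at e2
    omega
  have hp' : (p : ℝ) ≠ 0 := by
    have : (1 : ℝ) ≤ p := by exact_mod_cast hp
    linarith
  have hn : ∀ X : Finset (Fin p), X.Nonempty →
      logCanonical X = ((X.card : ℝ) - 1) * ((p : ℝ) - X.card) / p := by
    intro X hX
    unfold logCanonical
    rw [if_neg (nonempty_iff_ne_empty.1 hX)]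
  unfold fdegree
  rw [hn _ hA, hn _ hB, hn _ hC, hn _ (hA.mono subset_union_left),
    hn _ (hA.mono subset_union_left), hn _ (hB.mono subset_union_left),
    hn _ (hA.mono (subset_union_left.trans subset_union_left)),
    card_union_of_disjoint (disjoint_union_left.2 ⟨h2, h3⟩), card_union_of_disjoint h1,
    card_union_of_disjoint h2, card_union_of_disjoint h3]
  push_cast
  field_simp
  ring

theorem size {B : Fin q → Finset (Fin p)} (h : IsStratum B) : q ≤ p := by
  have e1 : ∑ i : Fin q, (B i).card ≤ p := by
    rw [← card_biUnion fun i _ j _ hij => h.2 i j hij]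
    have := card_le_univ (univ.biUnion B)
    rwa [Fintype.card_fin] at this
  have e2 : ∑ _i : Fin q, 1 ≤ ∑ i : Fin q, (B i).card :=
    sum_le_sum fun i _ => card_pos.2 (h.1 i)
  rw [sum_const, card_univ, Fintype.card_fin, smul_eq_mul, mul_one] at e2
  omega

theorem log_degree {B : Fin q → Finset (Fin p)} {m : Finset (Fin q) → ℕ} {d : ℕ} (hq : 3 ≤ q)
    (hB : IsStratum B) (hm : IsCurve m d) : degree logCanonical B m d =
      ∑ S : Finset (Fin q), (m S : ℝ) * ((S.card : ℝ) - 1) - d * ((q : ℝ) - 1) := by
  have hp := size hB
  have hd := logCanonical_divisor (p := p) (by omega)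
  have h1 := R647.AF.nef_stratum (c := logCanonical) (a := 1) (b := 1) (hd.1 ∅ (by simp)) le_rfl
    (fun A B C hA hB hC k1 k2 k3 => by
      have := logCanonical_fdegree hA hB hC k1 k2 k3
      unfold fdegree at this
      unfold R647.AF.T
      constructor <;> linarith) hq hB.1 hB.2 hm.1 hm.2.1 hm.2.2
  have h2 := R647.AF.nef_stratum (c := fun S => - logCanonical S) (a := -1) (b := -1)
    (by rw [hd.1 ∅ (by simp), neg_zero]) le_rfl
    (fun A B C hA hB hC k1 k2 k3 => by
      have := logCanonical_fdegree hA hB hC k1 k2 k3
      unfold fdegree at this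
      unfold R647.AF.T
      constructor <;> linarith) hq hB.1 hB.2 hm.1 hm.2.1 hm.2.2
  simp only [neg_mul, sum_neg_distrib] at h2
  unfold degree
  simp only [sub_self, mul_zero, sub_zero, one_mul] at h1 h2
  apply le_antisymm
  · linarith
  · linarith

theorem kalRob : N4.KR.KalRob2 :=
  N4.KR.v7 (N4.KR.v5 (N4.KR.v4 (N4.KR.v3 N4.KR.v1 N4.KR.v2))) N4.KR.v6 N4.KR.l7 N4.KR.l8

theorem gau : N4.KR.Two.Gau := by
  intro V _ _ c o a b h1 h2 h3 h4
  exact N4.KR.w7 (N4.KR.w6 kalRob N4.KR.w1 N4.KR.w2 N4.KR.w3 N4.KR.w4 N4.KR.w5) V c o a b h1 h2 h3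
    h4

/-- Let `D = ∑ c S • δ_S` be a divisor on `M̄_{0,p+1}` with real coefficients, and let its degrees on
all the F-curves lie in `[a, b]`.  Put `e = a - κ (b - a)`, where `κ` is the minimum of
`3 √(p + 1)` and `51`.

1. `D` is linearly equivalent to a sum of boundary divisors in which the coefficient of every `δ_S`
   is at least `e` times the coefficient of `K + Δ`.  So `D - e (K + Δ)` is linearly equivalent to an
   effective sum of boundary divisors.
2. On every curve, in every stratum, the degree of `D` is at least `e` times the degree of `K + Δ`.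
   So `D - e (K + Δ)` is nef.
3. If `0 < a` and `b ≤ (1 + 1 / 52) a`, then `D` has positive degree on all the nonzero classes of
   curves in the factors of the strata, and at least `a / 52` times the degree of the ample divisor
   `K + Δ`.  So `D` is ample.
4. The divisor `K + Δ` has degree one on the F-curves, and it has positive degree on all the nonzero
   classes of curves in the factors of the strata. -/
theorem result (p : ℕ) (c : Finset (Fin p) → ℝ) (hc : IsDivisor c) (a b : ℝ)
    (h : ∀ A B C : Finset (Fin p), A.Nonempty → B.Nonempty → C.Nonempty → Disjoint A B →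
      Disjoint A C → Disjoint B C → a ≤ fdegree c A B C ∧ fdegree c A B C ≤ b) :
    (∃ u : Finset (Fin p) → ℝ, IsDivisor u ∧ LinEquiv c u ∧
      ∀ S : Finset (Fin p), 2 ≤ S.card → S.card < p →
        (a - kappa (p + 1) * (b - a)) * logCanonical S ≤ u S) ∧
    (∀ (q : ℕ) (B : Fin q → Finset (Fin p)) (m : Finset (Fin q) → ℕ) (d : ℕ), 3 ≤ q →
      IsStratum B → IsCurve m d →
        (a - kappa (p + 1) * (b - a)) * degree logCanonical B m d ≤ degree c B m d) ∧
    (0 < a → b ≤ (1 + 1 / 52) * a → ∀ (q : ℕ) (B : Fin q → Finset (Fin p))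
      (m : Finset (Fin q) → ℕ) (d : ℕ), 3 ≤ q → IsStratum B → IsCurve m d →
        a / 52 * degree logCanonical B m d ≤ degree c B m d ∧
          ((∃ S, m S ≠ 0) → 0 < degree c B m d)) ∧
    (1 ≤ p → IsDivisor (logCanonical (p := p))) ∧
    (∀ A B C : Finset (Fin p), A.Nonempty → B.Nonempty → C.Nonempty → Disjoint A B →
      Disjoint A C → Disjoint B C → fdegree logCanonical A B C = 1) ∧
    (∀ (q : ℕ) (B : Fin q → Finset (Fin p)) (m : Finset (Fin q) → ℕ) (d : ℕ), 3 ≤ q →
      IsStratum B → IsCurve m d → 0 ≤ degree logCanonical B m d ∧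
        ((∃ S, m S ≠ 0) → 0 < degree logCanonical B m d)) := by
  have hab : 3 ≤ p → a ≤ b := by
    intro hp
    have hne : ∀ i j : ℕ, ∀ (hi : i < p) (hj : j < p), i ≠ j →
        Disjoint ({⟨i, hi⟩} : Finset (Fin p)) {⟨j, hj⟩} := by
      intro i j hi hj hij
      rw [disjoint_singleton, Ne, Fin.mk.injEq]
      exact hij
    have h1 := h {⟨0, by omega⟩} {⟨1, by omega⟩} {⟨2, by omega⟩} (singleton_nonempty _)
      (singleton_nonempty _) (singleton_nonempty _) (hne _ _ _ _ (by omega))
      (hne _ _ _ _ (by omega)) (hne _ _ _ _ (by omega))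
    exact h1.1.trans h1.2
  have hT : ∀ A B C : Finset (Fin p), A.Nonempty → B.Nonempty → C.Nonempty → Disjoint A B →
      Disjoint A C → Disjoint B C → a ≤ R647.AF.T c A B C ∧ R647.AF.T c A B C ≤ b := h
  have hnef : ∀ (q : ℕ) (B : Fin q → Finset (Fin p)) (m : Finset (Fin q) → ℕ) (d : ℕ), 3 ≤ q →
      IsStratum B → IsCurve m d →
        (a - kappa (p + 1) * (b - a)) * degree logCanonical B m d ≤ degree c B m d := by
    intro q B m d hq hB hm
    have hp := size hB
    rw [log_degree hq hB hm]
    exact N4.KR.Two.nef_stratum gau (hc.1 ∅ (by simp)) (hab (by omega)) hT hq hB.1 hB.2 hm.1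
      hm.2.1 hm.2.2
  have hlog : ∀ (q : ℕ) (B : Fin q → Finset (Fin p)) (m : Finset (Fin q) → ℕ) (d : ℕ), 3 ≤ q →
      IsStratum B → IsCurve m d → 0 ≤ degree logCanonical B m d ∧
        ((∃ S, m S ≠ 0) → 0 < degree logCanonical B m d) := by
    intro q B m d hq hB hm
    rw [log_degree hq hB hm]
    exact ⟨R647.AF.log_nonneg (by omega) hm.1 hm.2.2, fun hS => R647.FC.lc_pos hm hS⟩
  refine ⟨?_, hnef, ?_, fun hp => logCanonical_divisor hp, fun A B C hA hB hC h1 h2 h3 =>
    logCanonical_fdegree hA hB hC h1 h2 h3, hlog⟩
  · by_cases hp : 3 ≤ p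
    · obtain ⟨u, h1, h2, h3, w, hw⟩ := N4.KR.Two.eff gau hc.1 (hab hp) hp hT
      refine ⟨u, ⟨h1, h2⟩, ⟨w, hw⟩, fun S hS hS' => ?_⟩
      have h4 := h3 S hS hS'
      unfold logCanonical
      rw [if_neg (by
        rintro rfl
        simp at hS)]
      exact h4
    · exact ⟨c, hc, ⟨fun _ _ => 0, fun S => by simp⟩, fun S hS hS' => by omega⟩
  · intro ha hb q B m d hq hB hm
    have hp := size hB
    have h1 := hnef q B m d hq hB hm
    have h2 := hlog q B m d hq hB hm
    have h3 : a / 52 ≤ a - kappa (p + 1) * (b - a) := by
      have h4 : kappa (p + 1) ≤ 51 := min_le_right _ _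
      have h5 : 0 ≤ b - a := by linarith [hab (by omega)]
      have h6 : kappa (p + 1) * (b - a) ≤ 51 * (b - a) := mul_le_mul_of_nonneg_right h4 h5
      linarith
    have h7 : a / 52 * degree logCanonical B m d ≤ degree c B m d :=
      (mul_le_mul_of_nonneg_right h3 h2.1).trans h1
    refine ⟨h7, fun hS => lt_of_lt_of_le ?_ h7⟩
    exact mul_pos (by positivity) (h2.2 hS)

end Pool.Agent.Results.MP_23e236_ag.UniformPinching
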